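import Pool.Agent.Helper62.LH.StG

/-!
# Project LH: the lemma of du Bois-Reymond
-/

set_option autoImplicit false

open Set Filter Topology MeasureTheory
open scoped ContDiff ENNReal

namespace Pool.Agent.Helper8.LH

open Helper62.LH

/-- a primitive of a test function of integral zero is a test function -/
theorem prim (θ : ℝ → ℝ) (h1 : ContDiff ℝ ∞ θ) (h2 : HasCompactSupport θ)
    (h3 : tsupport θ ⊆ Ioo 0 1) (h4 : ∫ t, θ t = 0) :
    ∃ ζ : ℝ → ℝ, ContDiff ℝ ∞ ζ ∧ HasCompactSupport ζ ∧ tsupport ζ ⊆ Ioo 0 1 ∧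
      ∀ t, deriv ζ t = θ t := by
  obtain ⟨a, b, ha, hb, hab⟩ : ∃ a b : ℝ, 0 < a ∧ b < 1 ∧ tsupport θ ⊆ Icc a b := by
    rcases (tsupport θ).eq_empty_or_nonempty with he | hne
    · exact ⟨1/2, 1/2, by norm_num, by norm_num, by rw [he]; exact empty_subset _⟩
    · have hc : IsCompact (tsupport θ) := h2
      obtain ⟨a, ha⟩ := hc.exists_isLeast hne
      obtain ⟨b, hb⟩ := hc.exists_isGreatest hne
      exact ⟨a, b, (h3 ha.1).1, (h3 hb.1).2, fun x hx => ⟨ha.2 hx, hb.2 hx⟩⟩
  have hz : ∀ t, t ∉ Icc a b → θ t = 0 := fun t ht => by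
    by_contra h
    exact ht (hab (subset_tsupport θ h))
  have hcont : Continuous θ := h1.continuous
  have hd : ∀ t, HasDerivAt (fun x => ∫ s in (0:ℝ)..x, θ s) (θ t) t := fun t =>
    intervalIntegral.integral_hasDerivAt_right (hcont.intervalIntegrable _ _)
      (hcont.stronglyMeasurableAtFilter _ _) hcont.continuousAt
  have hsup : Function.support (fun x => ∫ s in (0:ℝ)..x, θ s) ⊆ Icc a b := by
    intro t ht
    by_contra hnot
    apply ht
    simp only
    rcases lt_or_ge t a with hta | hta
    · have e : ∫ s in (0:ℝ)..t, θ s = ∫ s in (0:ℝ)..t, (0 : ℝ) := by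
        apply intervalIntegral.integral_congr
        intro s hs
        apply hz
        intro hs'
        have : s ≤ max 0 t := hs.2
        have h5 : max 0 t < a := max_lt ha hta
        linarith [hs'.1]
      rw [e]; simp
    · have htb : b < t := by
        by_contra h; push Not at h; exact hnot ⟨hta, h⟩
      rw [intervalIntegral.integral_eq_integral_of_support_subset, h4]
      intro s hs
      have := hab (subset_tsupport θ hs)
      exact ⟨by linarith [this.1], by linarith [this.2]⟩
  have hts : tsupport (fun x => ∫ s in (0:ℝ)..x, θ s) ⊆ Icc a b :=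
    closure_minimal hsup isClosed_Icc
  refine ⟨fun x => ∫ s in (0:ℝ)..x, θ s, ?_, ?_, ?_, fun t => (hd t).deriv⟩
  · rw [contDiff_infty_iff_deriv]
    refine ⟨fun t => (hd t).differentiableAt, ?_⟩
    have : deriv (fun x => ∫ s in (0:ℝ)..x, θ s) = θ := funext fun t => (hd t).deriv
    rw [this]; exact h1
  · exact isCompact_Icc.of_isClosed_subset (isClosed_tsupport _) hts
  · exact hts.trans (fun x hx => ⟨lt_of_lt_of_le ha hx.1, lt_of_le_of_lt hx.2 hb⟩)

theorem test0 : ∃ η : ℝ → ℝ, ContDiff ℝ ∞ η ∧ HasCompactSupport η ∧ tsupport η ⊆ Ioo 0 1 ∧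
    ∫ t, η t = 1 := by
  let f : ContDiffBump (1/2 : ℝ) := ⟨1/8, 1/4, by norm_num, by norm_num⟩
  refine ⟨f.normed volume, f.contDiff_normed, f.hasCompactSupport_normed, ?_, f.integral_normed⟩
  rw [f.tsupport_normed_eq]
  intro x hx
  rw [Metric.mem_closedBall, Real.dist_eq, abs_le] at hx
  have : f.rOut = 1/4 := rfl
  rw [this] at hx
  constructor <;> linarith [hx.1, hx.2]

theorem int_test {R η : ℝ → ℝ} (hs : tsupport η ⊆ Ioo 0 1) :
    ∫ t in (0:ℝ)..1, R t * η t = ∫ t, R t * η t := by
  apply intervalIntegral.integral_eq_integral_of_support_subset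
  intro t ht
  have h1 : t ∈ Function.support η := fun h => ht (by simp only; rw [h, mul_zero])
  have h2 := hs (subset_tsupport η h1)
  exact ⟨h2.1, h2.2.le⟩

/-- scalar version -/
theorem dbr1 (p q : ℝ → ℝ) (hp : IntervalIntegrable p volume 0 1)
    (hq : IntervalIntegrable q volume 0 1)
    (h : ∀ η : ℝ → ℝ, ContDiff ℝ ∞ η → HasCompactSupport η → tsupport η ⊆ Ioo 0 1 →
      ∫ t in (0:ℝ)..1, (p t * deriv η t + q t * η t) = 0) :
    ∃ c : ℝ, ∀ᵐ t, t ∈ Ioo (0:ℝ) 1 → p t = c + ∫ s in (0:ℝ)..t, q s := by
  set F : ℝ → ℝ := fun t => ∫ s in (0:ℝ)..t, q s with hF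
  have hFac : AbsolutelyContinuousOnInterval F 0 1 :=
    hq.absolutelyContinuousOnInterval_intervalIntegral (c := 0) (by simp)
  have hFd : ∀ᵐ x, x ∈ uIcc (0:ℝ) 1 → deriv F x = q x := by
    filter_upwards [hq.ae_hasDerivAt_integral] with x hx hx1
    exact (hx hx1 0 (by simp)).deriv
  have hFi : IntervalIntegrable F volume 0 1 := hFac.continuousOn.intervalIntegrable
  have hRi : IntervalIntegrable (fun t => p t - F t) volume 0 1 := hp.sub hFi
  have key : ∀ η : ℝ → ℝ, ContDiff ℝ ∞ η → HasCompactSupport η → tsupport η ⊆ Ioo 0 1 →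
      ∫ t in (0:ℝ)..1, (p t - F t) * deriv η t = 0 := by
    intro η h1 h2 h3
    have hη0 : η 0 = 0 := by
      by_contra h0
      exact lt_irrefl _ (h3 (subset_tsupport η h0)).1
    have hη1 : η 1 = 0 := by
      by_contra h0
      exact lt_irrefl _ (h3 (subset_tsupport η h0)).2
    have hηac : AbsolutelyContinuousOnInterval η 0 1 :=
      (h1.of_le (by exact_mod_cast le_top)).contDiffOn.absolutelyContinuousOnInterval
    have hηd : Continuous (deriv η) := h1.continuous_deriv (by exact_mod_cast le_top)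
    have e1 := hFac.integral_mul_deriv_eq_deriv_mul hηac
    rw [hη0, hη1, mul_zero, mul_zero, sub_zero, zero_sub] at e1
    have e2 : ∫ x in (0:ℝ)..1, deriv F x * η x = ∫ x in (0:ℝ)..1, q x * η x := by
      apply intervalIntegral.integral_congr_ae
      filter_upwards [hFd] with x hx hx1
      rw [hx (uIoc_subset_uIcc hx1)]
    have i1 : IntervalIntegrable (fun t => p t * deriv η t) volume 0 1 :=
      hp.mul_continuousOn hηd.continuousOn
    have i2 : IntervalIntegrable (fun t => q t * η t) volume 0 1 :=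
      hq.mul_continuousOn h1.continuous.continuousOn
    have i3 : IntervalIntegrable (fun t => F t * deriv η t) volume 0 1 :=
      hFi.mul_continuousOn hηd.continuousOn
    have e3 := h η h1 h2 h3
    rw [intervalIntegral.integral_add i1 i2] at e3
    have e4 : ∫ t in (0:ℝ)..1, (p t - F t) * deriv η t =
        (∫ t in (0:ℝ)..1, p t * deriv η t) - ∫ t in (0:ℝ)..1, F t * deriv η t := by
      rw [← intervalIntegral.integral_sub i1 i3]
      apply intervalIntegral.integral_congr
      intro t _
      simp only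
      ring
    rw [e4, e1, e2]
    linarith
  obtain ⟨η₀, a1, a2, a3, a4⟩ := test0
  set c := ∫ t in (0:ℝ)..1, (p t - F t) * η₀ t with hc
  have key2 : ∀ η : ℝ → ℝ, ContDiff ℝ ∞ η → HasCompactSupport η → tsupport η ⊆ Ioo 0 1 →
      ∫ t, η t • (p t - F t - c) = 0 := by
    intro η h1 h2 h3
    set m := ∫ t, η t with hm
    have hth : ContDiff ℝ ∞ (fun t => η t - m * η₀ t) := h1.sub (contDiff_const.mul a1)
    have hsub : tsupport (fun t => η t - m * η₀ t) ⊆ tsupport η ∪ tsupport η₀ := by
      apply closure_minimal _ ((isClosed_tsupport _).union (isClosed_tsupport _))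
      intro t ht
      by_cases h5 : η t = 0
      · right
        apply subset_tsupport
        intro h6
        apply ht
        simp only
        rw [h5, h6]; ring
      · left
        exact subset_tsupport _ h5
    have hthc : HasCompactSupport (fun t => η t - m * η₀ t) :=
      (IsCompact.union h2 a2).of_isClosed_subset (isClosed_tsupport _) hsub
    have iη : Integrable η := h1.continuous.integrable_of_hasCompactSupport h2
    have iη₀ : Integrable η₀ := a1.continuous.integrable_of_hasCompactSupport a2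
    have hth0 : ∫ t, (η t - m * η₀ t) = 0 := by
      rw [integral_sub iη (iη₀.const_mul m), integral_const_mul, a4, mul_one, ← hm, sub_self]
    obtain ⟨ζ, z1, z2, z3, z4⟩ := prim _ hth hthc (hsub.trans (union_subset h3 a3)) hth0
    have e1 := key ζ z1 z2 z3
    have i1 : IntervalIntegrable (fun t => (p t - F t) * η t) volume 0 1 :=
      hRi.mul_continuousOn h1.continuous.continuousOn
    have i2 : IntervalIntegrable (fun t => (p t - F t) * η₀ t) volume 0 1 :=
      hRi.mul_continuousOn a1.continuous.continuousOn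
    have e2 : ∫ t in (0:ℝ)..1, (p t - F t) * deriv ζ t =
        (∫ t in (0:ℝ)..1, (p t - F t) * η t) - m * c := by
      rw [hc, ← intervalIntegral.integral_const_mul, ← intervalIntegral.integral_sub i1
        (i2.const_mul m)]
      apply intervalIntegral.integral_congr
      intro t _
      simp only
      rw [z4]; ring
    rw [e1] at e2
    have e3 : ∫ t, η t • (p t - F t - c) = ∫ t in (0:ℝ)..1, (p t - F t - c) * η t := by
      rw [int_test (R := fun t => p t - F t - c) h3]
      congr 1
      ext t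
      rw [smul_eq_mul, mul_comm]
    have e4 : ∫ t in (0:ℝ)..1, (p t - F t - c) * η t =
        (∫ t in (0:ℝ)..1, (p t - F t) * η t) - c * ∫ t in (0:ℝ)..1, η t := by
      rw [← intervalIntegral.integral_const_mul, ← intervalIntegral.integral_sub i1
        ((h1.continuous.intervalIntegrable _ _).const_mul c)]
      apply intervalIntegral.integral_congr
      intro t _
      simp only
      ring
    have e5 : ∫ t in (0:ℝ)..1, η t = m := by
      have := int_test (R := fun _ => (1:ℝ)) h3
      simp only [one_mul] at this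
      rw [this]
    rw [e3, e4, e5]
    linarith
  refine ⟨c, ?_⟩
  have hloc : LocallyIntegrableOn (fun t => p t - F t - c) (Ioo (0:ℝ) 1) volume := by
    have h5 : IntervalIntegrable (fun t => p t - F t - c) volume 0 1 :=
      hRi.sub (intervalIntegrable_const)
    have h6 : IntegrableOn (fun t => p t - F t - c) (Ioo 0 1) volume :=
      (h5.1).mono_set Ioo_subset_Ioc_self
    exact h6.locallyIntegrableOn
  filter_upwards [isOpen_Ioo.ae_eq_zero_of_integral_contDiff_smul_eq_zero hloc key2] with t ht ht1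
  have := ht ht1
  simp only [hF] at this ⊢
  linarith

theorem hDbr : StDbr := by
  intro n P Q hP hQ h
  have hPi : ∀ i : Fin n, IntervalIntegrable (fun t => P t (ee i)) volume 0 1 := fun i =>
    ⟨(ContinuousLinearMap.apply ℝ ℝ (ee i : E n)).integrable_comp hP.1,
      (ContinuousLinearMap.apply ℝ ℝ (ee i : E n)).integrable_comp hP.2⟩
  have hQi : ∀ i : Fin n, IntervalIntegrable (fun t => Q t (ee i)) volume 0 1 := fun i =>
    ⟨(ContinuousLinearMap.apply ℝ ℝ (ee i : E n)).integrable_comp hQ.1,
      (ContinuousLinearMap.apply ℝ ℝ (ee i : E n)).integrable_comp hQ.2⟩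
  have hsc : ∀ i : Fin n, ∃ c : ℝ, ∀ᵐ t, t ∈ Ioo (0:ℝ) 1 →
      P t (ee i) = c + ∫ s in (0:ℝ)..t, Q s (ee i) := by
    intro i
    refine dbr1 _ _ (hPi i) (hQi i) ?_
    intro η h1 h2 h3
    have hd : ∀ t, deriv (fun t => η t • (ee i : E n)) t = deriv η t • (ee i : E n) := fun t =>
      ((h1.differentiable (by simp)).differentiableAt.hasDerivAt.smul_const _).deriv
    have := h (fun t => η t • (ee i : E n)) (h1.smul contDiff_const) h2.smul_right
      ((tsupport_smul_subset_left η _).trans h3)
    refine Eq.trans ?_ this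
    apply intervalIntegral.integral_congr
    intro t _
    simp only
    rw [hd, map_smul, map_smul, smul_eq_mul, smul_eq_mul]
    ring
  choose c hc using hsc
  refine ⟨∑ i, c i • (EuclideanSpace.proj i : E n →L[ℝ] ℝ), ?_⟩
  rw [← restrict_Ioo_eq_restrict_Icc, ae_restrict_iff' measurableSet_Ioo]
  have hall : ∀ᵐ t, ∀ i, t ∈ Ioo (0:ℝ) 1 → P t (ee i) = c i + ∫ s in (0:ℝ)..t, Q s (ee i) :=
    ae_all_iff.2 hc
  filter_upwards [hall] with t ht ht1
  have hQt : IntervalIntegrable Q volume 0 t := hQ.mono_set (by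
    rw [uIcc_of_le ht1.1.le, uIcc_of_le zero_le_one]
    exact Icc_subset_Icc le_rfl ht1.2.le)
  apply ContinuousLinearMap.coe_injective
  apply (EuclideanSpace.basisFun (Fin n) ℝ).toBasis.ext
  intro i
  have e1 : (EuclideanSpace.basisFun (Fin n) ℝ).toBasis i = (ee i : E n) := by
    simp [ee]
  rw [e1]
  simp only [ContinuousLinearMap.coe_coe, ContinuousLinearMap.add_apply]
  rw [ht i ht1, ContinuousLinearMap.intervalIntegral_apply hQt]
  congr 1
  simp [ee, ContinuousLinearMap.sum_apply]

end Pool.Agent.Helper8.LH
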