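import Pool.Agent.Helper62.LH.StG

/-!
# Project LH: distance and energy
-/

set_option autoImplicit false

open Set Filter Topology MeasureTheory
open scoped ContDiff ENNReal NNReal

namespace Pool.Agent.Helper8.LH

open Helper62.LH

theorem g_nonneg {n : ℕ} {g : E n → Bl n} (hg : IsMet g) (x v : E n) : 0 ≤ g x v v := by
  by_cases h : v = 0
  · rw [h]; simp
  · exact (hg.pos x v h).le

theorem dg_nonneg {n : ℕ} (g : E n → Bl n) (x y : E n) : 0 ≤ dg g x y := by
  apply Real.sInf_nonneg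
  rintro l ⟨c, -, -, -, rfl⟩
  exact intervalIntegral.integral_nonneg zero_le_one (fun t _ => Real.sqrt_nonneg _)

theorem hDge (h0 : StLl) : StDge := by
  intro n g hg c v hc hv
  have hcc : ContinuousOn c (Icc (0:ℝ) 1) := fun t ht => (hc t ht).continuousWithinAt
  -- the Lipschitz extension
  obtain ⟨K, hK⟩ : ∃ K : ℝ≥0, ∀ t ∈ Icc (0:ℝ) 1, ‖v t‖₊ ≤ K := by
    obtain ⟨B, hB⟩ := isCompact_Icc.exists_bound_of_continuousOn hv
    refine ⟨B.toNNReal, fun t ht => ?_⟩
    rw [← NNReal.coe_le_coe, coe_nnnorm]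
    exact (hB t ht).trans (Real.le_coe_toNNReal B)
  have hLip : LipschitzOnWith K c (Icc (0:ℝ) 1) :=
    (convex_Icc 0 1).lipschitzOnWith_of_nnnorm_hasDerivWithin_le (f' := v) hc hK
  set γ : ℝ → E n := fun t => c (projIcc (0:ℝ) 1 zero_le_one t) with hγ
  have hγL : LipschitzWith K γ := by
    intro s t
    calc edist (γ s) (γ t) ≤ K * edist ((projIcc (0:ℝ) 1 zero_le_one s : ℝ))
          ((projIcc (0:ℝ) 1 zero_le_one t : ℝ)) :=
          hLip (projIcc (0:ℝ) 1 zero_le_one s).2 (projIcc (0:ℝ) 1 zero_le_one t).2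
      _ ≤ K * edist s t := by
          gcongr
          have h7 := (LipschitzWith.projIcc (a := (0:ℝ)) (b := 1) zero_le_one) s t
          rw [ENNReal.coe_one, one_mul] at h7
          exact h7
  have hγ0 : γ 0 = c 0 := by
    simp only [hγ]; rw [projIcc_of_mem zero_le_one (show (0:ℝ) ∈ Icc (0:ℝ) 1 by simp)]
  have hγ1 : γ 1 = c 1 := by
    simp only [hγ]; rw [projIcc_of_mem zero_le_one (show (1:ℝ) ∈ Icc (0:ℝ) 1 by simp)]
  have hev : ∀ t ∈ Ioo (0:ℝ) 1, γ =ᶠ[𝓝 t] c := by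
    intro t ht
    filter_upwards [Ioo_mem_nhds ht.1 ht.2] with s hs
    simp only [hγ]
    rw [projIcc_of_mem zero_le_one (Ioo_subset_Icc_self hs)]
  have hd : ∀ t ∈ Ioo (0:ℝ) 1, deriv γ t = v t := by
    intro t ht
    have h5 : HasDerivAt c (v t) t := (hc t (Ioo_subset_Icc_self ht)).hasDerivAt
      (Icc_mem_nhds ht.1 ht.2)
    rw [(hev t ht).deriv_eq, h5.deriv]
  have hLL := h0 n g hg γ K hγL
  rw [hγ0, hγ1] at hLL
  set N : ℝ → ℝ := fun t => nr g (c t) (v t) with hN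
  have e1 : ∫ t in (0:ℝ)..1, nr g (γ t) (deriv γ t) = ∫ t in (0:ℝ)..1, N t := by
    apply intervalIntegral.integral_congr_ae
    have h5 : ∀ᵐ t : ℝ, t ≠ 1 := by simp [ae_iff, measure_singleton]
    filter_upwards [h5] with t ht1 ht
    rw [uIoc_of_le zero_le_one] at ht
    have htt : t ∈ Ioo (0:ℝ) 1 := ⟨ht.1, lt_of_le_of_ne ht.2 ht1⟩
    rw [hd t htt, (hev t htt).self_of_nhds]
  rw [e1] at hLL
  -- continuity
  have hgc : ContinuousOn (fun t => g (c t) (v t) (v t)) (Icc (0:ℝ) 1) := by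
    have h5 : ContinuousOn (fun t => g (c t)) (Icc (0:ℝ) 1) :=
      hg.smooth.continuous.comp_continuousOn hcc
    exact (h5.clm_apply hv).clm_apply hv
  have hNc : ContinuousOn N (Icc (0:ℝ) 1) := by
    simp only [hN, nr]
    exact hgc.sqrt
  have hNi : IntervalIntegrable N volume 0 1 := by
    apply ContinuousOn.intervalIntegrable
    rw [uIcc_of_le zero_le_one]; exact hNc
  have hN2 : ∀ t, N t ^ 2 = g (c t) (v t) (v t) := fun t => Real.sq_sqrt (g_nonneg hg _ _)
  have hN2i : IntervalIntegrable (fun t => N t ^ 2) volume 0 1 := by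
    apply ContinuousOn.intervalIntegrable
    rw [uIcc_of_le zero_le_one]; exact hNc.pow 2
  set a := ∫ t in (0:ℝ)..1, N t with ha
  have hpos : 0 ≤ ∫ t in (0:ℝ)..1, (a - N t) ^ 2 :=
    intervalIntegral.integral_nonneg zero_le_one (fun t _ => sq_nonneg _)
  have e2 : ∫ t in (0:ℝ)..1, (a - N t) ^ 2 = a ^ 2 - 2 * a * a + ∫ t in (0:ℝ)..1, N t ^ 2 := by
    have e3 : ∫ t in (0:ℝ)..1, (a - N t) ^ 2 =
        ∫ t in (0:ℝ)..1, ((a ^ 2 - 2 * a * N t) + N t ^ 2) := by
      apply intervalIntegral.integral_congr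
      intro t _
      simp only
      ring
    rw [e3, intervalIntegral.integral_add ((intervalIntegrable_const).sub (hNi.const_mul _)) hN2i,
      intervalIntegral.integral_sub intervalIntegrable_const (hNi.const_mul _),
      intervalIntegral.integral_const_mul, intervalIntegral.integral_const, ← ha]
    simp
  have e4 : ∫ t in (0:ℝ)..1, N t ^ 2 = ∫ t in (0:ℝ)..1, g (c t) (v t) (v t) := by
    apply intervalIntegral.integral_congr
    intro t _
    exact hN2 t
  have h6 : dg g (c 0) (c 1) ^ 2 ≤ a ^ 2 := pow_le_pow_left₀ (dg_nonneg g _ _) hLL 2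
  rw [← e4]
  nlinarith

end Pool.Agent.Helper8.LH
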