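import Pool.Agent.Helper62.LH.StA

/-!
# Project LH, module ONE: `L²` harmonic `1`-forms are parallel
-/

set_option autoImplicit false
set_option maxSynthPendingDepth 3

open Set Filter Topology MeasureTheory
open scoped ContDiff ENNReal

noncomputable section

namespace Pool.Agent.Helper8.LH

open Helper62.LH

private lemma cB_apply_ONE {n : ℕ} (Γ : E n → Bm n) (θ : E n → Dl n) (x u v : E n) :
    cB Γ θ x u v = cf Γ θ x u v := by
  simp [cB, cf]

private lemma N2_eq_ONE {n : ℕ} (g : E n → Bl n) (Γ : E n → Bm n) (θ : E n → Dl n) (x : E n) :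
    N2 g Γ θ x = nB g x (fun u v => cB Γ θ x u v) := by
  have : (fun u v => cB Γ θ x u v) = cf Γ θ x := by
    funext u v
    exact cB_apply_ONE Γ θ x u v
  rw [this]
  rfl

private lemma cont_cB_ONE {n : ℕ} {Γ : E n → Bm n} (hΓ : ContDiff ℝ ∞ Γ) {θ : E n → Dl n}
    (hθ : ContDiff ℝ ∞ θ) : Continuous (cB Γ θ) := by
  have h1 : Continuous (fderiv ℝ θ) := hθ.continuous_fderiv (by simp)
  have h2 : Continuous fun x => ContinuousLinearMap.compL ℝ (E n) (E n) ℝ (θ x) :=
    (ContinuousLinearMap.compL ℝ (E n) (E n) ℝ).continuous.comp hθ.continuous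
  have h3 : Continuous fun x => (ContinuousLinearMap.compL ℝ (E n) (E n) ℝ (θ x)).comp (Γ x) :=
    h2.clm_comp hΓ.continuous
  exact h1.sub h3

private lemma nB_zero_ONE {n : ℕ} (g : E n → Bl n) (x : E n) :
    nB g x (fun u v => (0 : Bl n) u v) = 0 := by
  simp [nB, trg]

/-- the pointwise facts about `χ θ` -/
private lemma cf_smul_ONE {n : ℕ} (Γ : E n → Bm n) {χ : E n → ℝ} {θ : E n → Dl n} {x : E n}
    (hχ : DifferentiableAt ℝ χ x) (hθ : DifferentiableAt ℝ θ x) (u v : E n) :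
    cf Γ (fun y => χ y • θ y) x u v = χ x * cf Γ θ x u v + fderiv ℝ χ x u * θ x v := by
  unfold cf
  rw [fderiv_fun_smul hχ hθ]
  simp
  ring

private lemma dd_smul_ONE {n : ℕ} {χ : E n → ℝ} {θ : E n → Dl n} {x : E n}
    (hχ : DifferentiableAt ℝ χ x) (hθ : DifferentiableAt ℝ θ x) (u v : E n) :
    dd (fun y => χ y • θ y) x u v =
      χ x * dd θ x u v + (fderiv ℝ χ x u * θ x v - fderiv ℝ χ x v * θ x u) := by
  unfold dd
  rw [fderiv_fun_smul hχ hθ]
  simp
  ring

private lemma trg_add_ONE {n : ℕ} (g : E n → Bl n) (x : E n) (c : ℝ) (B C : E n → E n → ℝ) :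
    trg g x (fun u v => c * B u v + C u v) = c * trg g x B + trg g x C := by
  unfold trg
  rw [Finset.mul_sum, ← Finset.sum_add_distrib]
  refine Finset.sum_congr rfl fun i _ => ?_
  rw [Finset.mul_sum, ← Finset.sum_add_distrib]
  refine Finset.sum_congr rfl fun j _ => ?_
  ring

private lemma ip_zero_left_ONE {n : ℕ} (g : E n → Bl n) (x : E n) (b : Dl n) :
    ip g x 0 b = 0 := by
  simp [ip, trg]

private lemma step_ONE (hChr : StChr) (hUt : StUt) (hIna : StIna) (hInb : StInb) (hBo : StBo)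
    {n : ℕ} {g : E n → Bl n} {Γ : E n → Bm n} (hg : IsMet g) (hΓ : IsChr g Γ) (hS : Sec g Γ)
    (hC : Cut g) {θ : E n → Dl n} (hθ : H1 g Γ θ) {K : Set (E n)} (hK : IsCompact K) {κ : ℝ}
    (hκ : 0 < κ) :
    ∫ x in K, N2 g Γ θ x * vol g x ≤ κ ^ 2 * (2 * ∫ x, ip g x (θ x) (θ x) * vol g x) := by
  obtain ⟨χ, ⟨hχs, hχc⟩, hχ01, hχ1, hχd⟩ := hC K hK κ hκ
  obtain ⟨hΓs, -, -⟩ := hChr n g Γ hg hΓ
  obtain ⟨hU1, hU2, hU3, hU4, -⟩ := hUt n g hg
  have hχdiff : Differentiable ℝ χ := hχs.differentiable (by simp)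
  have hθdiff : Differentiable ℝ θ := hθ.smooth.differentiable (by simp)
  let η : E n → Dl n := fun y => χ y • θ y
  have hηs : ContDiff ℝ ∞ η := hχs.smul hθ.smooth
  have hηc : HasCompactSupport η := hχc.smul_right
  have hB := hBo n g Γ hg hΓ hS (fun _ => 0) 0 contDiff_const (by
    intro x v
    simp [Hs]) η hηs hηc
  simp only [zero_mul, sub_zero, neg_zero, Real.exp_zero, one_mul] at hB
  -- the right side
  have hpt : ∀ x, nB g x (dd η x) / 2 + dl g Γ (fun _ => 0) η x ^ 2 ≤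
      κ ^ 2 * (2 * ip g x (θ x) (θ x)) := by
    intro x
    obtain ⟨hi1, -, -, hi4, -, -, hi7, -⟩ := hIna n g hg x
    obtain ⟨-, -, -, hb4, -⟩ := hInb n g hg x
    have e1 : dd η x = fun u v => fderiv ℝ χ x u * θ x v - fderiv ℝ χ x v * θ x u := by
      funext u v
      have h := dd_smul_ONE (hχdiff x) (hθdiff x) u v
      rw [hθ.closed] at h
      simpa using h
    have e2 : dl g Γ (fun _ => 0) η x = ip g x (fderiv ℝ χ x) (θ x) := by
      unfold dl
      have h1 : cf Γ η x = fun u v => χ x * cf Γ θ x u v + fderiv ℝ χ x u * θ x v := by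
        funext u v
        exact cf_smul_ONE Γ (hχdiff x) (hθdiff x) u v
      rw [h1, trg_add_ONE, hθ.cocl]
      have h2 : fderiv ℝ (fun _ : E n => (0 : ℝ)) x = 0 := by simp
      rw [h2, ip_zero_left_ONE]
      simp [ip]
    have ha : ip g x (fderiv ℝ χ x) (fderiv ℝ χ x) ≤ κ ^ 2 := hi7 _ κ hκ.le (hχd x)
    have hA := hi1 (fderiv ℝ χ x)
    have hT := hi1 (θ x)
    have h3 := hb4 (fderiv ℝ χ x) (θ x)
    have h4 : ip g x (fderiv ℝ χ x) (θ x) ^ 2 ≤
        ip g x (fderiv ℝ χ x) (fderiv ℝ χ x) * ip g x (θ x) (θ x) := by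
      have h5 := hi4 (fderiv ℝ χ x) (θ x)
      have h6 : ip g x (fderiv ℝ χ x) (θ x) ^ 2 ≤
          (√(ip g x (fderiv ℝ χ x) (fderiv ℝ χ x)) * √(ip g x (θ x) (θ x))) ^ 2 := by
        rw [← sq_abs]
        exact pow_le_pow_left₀ (abs_nonneg _) h5 2
      rwa [mul_pow, Real.sq_sqrt hA, Real.sq_sqrt hT] at h6
    have h7 : ip g x (fderiv ℝ χ x) (fderiv ℝ χ x) * ip g x (θ x) (θ x) ≤
        κ ^ 2 * ip g x (θ x) (θ x) := mul_le_mul_of_nonneg_right ha hT
    rw [e1, e2]
    linarith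
  have hpos : ∀ x, 0 ≤ nB g x (dd η x) / 2 + dl g Γ (fun _ => 0) η x ^ 2 := by
    intro x
    obtain ⟨hb1, -⟩ := hInb n g hg x
    have e1 : nB g x (dd η x) = nB g x (fun u v => dB η x u v) := by
      congr 1
    rw [e1]
    have := hb1 (dB η x)
    positivity
  have hR : ∫ x, (nB g x (dd η x) / 2 + dl g Γ (fun _ => 0) η x ^ 2) * vol g x ≤
      κ ^ 2 * (2 * ∫ x, ip g x (θ x) (θ x) * vol g x) := by
    rw [← integral_const_mul, ← integral_const_mul]
    refine integral_mono_of_nonneg (Eventually.of_forall fun x => ?_)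
      ((hθ.int.const_mul 2).const_mul (κ ^ 2)) (Eventually.of_forall fun x => ?_)
    · exact mul_nonneg (hpos x) (hU4 x).le
    · have := mul_le_mul_of_nonneg_right (hpt x) (hU4 x).le
      calc _ ≤ _ := this
        _ = _ := by ring
  -- the left side
  have hN2η : Continuous (N2 g Γ η) := by
    have h := hU2 (cB Γ η) (cB Γ η) (cont_cB_ONE hΓs hηs) (cont_cB_ONE hΓs hηs)
    have e : N2 g Γ η = fun x => iB g x (fun u v => cB Γ η x u v) (fun u v => cB Γ η x u v) := by
      funext x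
      rw [N2_eq_ONE]
      rfl
    rw [e]
    exact h
  have hN2pos : ∀ x, 0 ≤ N2 g Γ η x := by
    intro x
    rw [N2_eq_ONE]
    exact (hInb n g hg x).1 _
  have hsupp : HasCompactSupport (fun x => N2 g Γ η x * vol g x) := by
    have h1 : HasCompactSupport (N2 g Γ η) := by
      refine HasCompactSupport.of_support_subset_isCompact hηc ?_
      intro x hx
      by_contra hcon
      apply hx
      have h2 : η =ᶠ[𝓝 x] 0 := notMem_tsupport_iff_eventuallyEq.1 hcon
      rw [N2_eq_ONE]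
      have h3 : cB Γ η x = 0 := by
        unfold cB
        rw [h2.fderiv_eq, h2.eq_of_nhds]
        simp
      rw [h3]
      exact nB_zero_ONE g x
    exact h1.mul_right
  have hint : Integrable (fun x => N2 g Γ η x * vol g x) :=
    (hN2η.mul hU3).integrable_of_hasCompactSupport hsupp
  have hL : ∫ x in K, N2 g Γ θ x * vol g x ≤ ∫ x, N2 g Γ η x * vol g x := by
    have h1 : ∫ x in K, N2 g Γ θ x * vol g x = ∫ x in K, N2 g Γ η x * vol g x := by
      refine setIntegral_congr_fun hK.measurableSet fun x hx => ?_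
      have h2 : fderiv ℝ χ x = 0 := by
        refine IsLocalMax.fderiv_eq_zero (Eventually.of_forall fun y => ?_)
        rw [hχ1 x hx]
        exact (hχ01 y).2
      have h3 : cf Γ η x = cf Γ θ x := by
        funext u v
        have h := cf_smul_ONE Γ (hχdiff x) (hθdiff x) u v
        rw [hχ1 x hx, h2] at h
        simpa using h
      change N2 g Γ θ x * vol g x = N2 g Γ η x * vol g x
      unfold N2
      rw [h3]
    rw [h1]
    exact setIntegral_le_integral hint (Eventually.of_forall fun x =>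
      mul_nonneg (hN2pos x) (hU4 x).le)
  exact hL.trans (hB.trans hR)

theorem hOne (hChr : StChr) (hUt : StUt) (hIna : StIna) (hInb : StInb) (hBo : StBo) : StOne := by
  intro n g Γ hg hΓ hS hC θ hθ x u v
  obtain ⟨hΓs, -, -⟩ := hChr n g Γ hg hΓ
  obtain ⟨hU1, hU2, hU3, hU4, -⟩ := hUt n g hg
  have hcont : Continuous (fun x => N2 g Γ θ x * vol g x) := by
    have h := hU2 (cB Γ θ) (cB Γ θ) (cont_cB_ONE hΓs hθ.smooth) (cont_cB_ONE hΓs hθ.smooth)
    have e : N2 g Γ θ = fun x => iB g x (fun u v => cB Γ θ x u v) (fun u v => cB Γ θ x u v) := by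
      funext x
      rw [N2_eq_ONE]
      rfl
    rw [e]
    exact h.mul hU3
  have hpos : ∀ x, 0 ≤ N2 g Γ θ x * vol g x := by
    intro x
    rw [N2_eq_ONE]
    exact mul_nonneg ((hInb n g hg x).1 _) (hU4 x).le
  have hK : IsCompact (Metric.closedBall x 1) := isCompact_closedBall x 1
  have h0 : ∫ y in Metric.closedBall x 1, N2 g Γ θ y * vol g y = 0 := by
    refine le_antisymm ?_ (integral_nonneg hpos)
    have h1 : ∀ κ > (0 : ℝ), ∫ y in Metric.closedBall x 1, N2 g Γ θ y * vol g y ≤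
        κ ^ 2 * (2 * ∫ x, ip g x (θ x) (θ x) * vol g x) := fun κ hκ =>
      step_ONE hChr hUt hIna hInb hBo hg hΓ hS hC hθ hK hκ
    have h2 : Tendsto (fun κ : ℝ => κ ^ 2 * (2 * ∫ x, ip g x (θ x) (θ x) * vol g x)) (𝓝[>] 0)
        (𝓝 (0 ^ 2 * (2 * ∫ x, ip g x (θ x) (θ x) * vol g x))) := by
      refine Tendsto.mono_left ?_ nhdsWithin_le_nhds
      exact ((continuous_pow 2).mul continuous_const).tendsto 0
    have h3 : (0 : ℝ) ^ 2 * (2 * ∫ x, ip g x (θ x) (θ x) * vol g x) = 0 := by ring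
    rw [h3] at h2
    refine ge_of_tendsto h2 ?_
    filter_upwards [self_mem_nhdsWithin] with κ hκ
    exact h1 κ hκ
  have h1 : (fun y => N2 g Γ θ y * vol g y) =ᵐ[volume.restrict (Metric.closedBall x 1)] 0 := by
    rwa [integral_eq_zero_iff_of_nonneg hpos
      (hcont.continuousOn.integrableOn_compact hK)] at h0
  have h2 : (fun y => N2 g Γ θ y * vol g y) =ᵐ[volume.restrict (Metric.ball x 1)] 0 :=
    ae_restrict_of_ae_restrict_of_subset Metric.ball_subset_closedBall h1
  have h3 := Measure.eqOn_open_of_ae_eq h2 Metric.isOpen_ball hcont.continuousOn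
    continuousOn_const (Metric.mem_ball_self one_pos)
  have h4 : N2 g Γ θ x = 0 := by
    have h5 : N2 g Γ θ x * vol g x = 0 := h3
    rcases mul_eq_zero.1 h5 with h | h
    · exact h
    · exact absurd h (hU4 x).ne'
  obtain ⟨hi1, -, hi3, -, -, -, -, hi8⟩ := hIna n g hg x
  rw [← cB_apply_ONE]
  have h5 : cB Γ θ x u = 0 := by
    apply hi3
    refine le_antisymm ?_ (hi1 _)
    have h6 := hi8 (cB Γ θ x) u
    rw [← N2_eq_ONE, h4, zero_mul] at h6
    exact h6
  rw [h5]
  rfl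

end Pool.Agent.Helper8.LH
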